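import Pool.Agent.L7h32.OS.Stm

set_option autoImplicit false

/-! Project OS, part LOC. -/

namespace Pool.Agent.L7h29.OS

open Filter Topology Pool.Agent.L7h32.OS

theorem half (P Q : Polynomial ℝ) (K : Set (ℝ × ℝ)) (hZ : K ⊆ Z P Q)
    (hcl : IsClosed (Z P Q \ K)) (p : ℝ × ℝ) (hp : p ∈ K)
    (hP : P.derivative.eval p.1 ≠ 0) (δ : ℝ) (hδ : 0 < δ) : ∃ ε : ℝ, 0 < ε ∧
      ∀ y : ℝ, |y - p.2| < ε → ∃ x : ℝ, |x - p.1| < δ ∧ (x, y) ∈ K := by
  obtain ⟨x₀, y₀⟩ := p
  simp only at hP ⊢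
  have hp0 : P.eval x₀ + Q.eval y₀ = 0 := hZ hp
  -- a neighbourhood which avoids the rest of the curve
  have hnot : (x₀, y₀) ∈ (Z P Q \ K)ᶜ := fun h => h.2 hp
  obtain ⟨r, hr, hball⟩ := Metric.isOpen_iff.1 hcl.isOpen_compl _ hnot
  -- the slope
  have hs := (hasDerivAt_iff_tendsto_slope.1 (P.hasDerivAt x₀)).mul_const (P.derivative.eval x₀)
  have hpos : 0 < P.derivative.eval x₀ * P.derivative.eval x₀ := mul_self_pos.2 hP
  have hev := hs.eventually (eventually_gt_nhds hpos)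
  rw [eventually_nhdsWithin_iff, Metric.eventually_nhds_iff] at hev
  obtain ⟨η, hη, hsl⟩ := hev
  obtain ⟨s, hsdef⟩ : ∃ s, s = min η (min δ r) / 2 := ⟨_, rfl⟩
  have hs0 : 0 < s := by rw [hsdef]; positivity
  have hsη : s < η := by
    have := min_le_left η (min δ r)
    linarith
  have hsδ : s < δ := by
    have := (min_le_right η (min δ r)).trans (min_le_left _ _)
    linarith
  have hsr : s < r := by
    have := (min_le_right η (min δ r)).trans (min_le_right _ _)
    linarith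
  have h2 := @hsl (x₀ + s) (by rw [Real.dist_eq, add_sub_cancel_left, abs_of_pos hs0]; exact hsη)
    (by simp [hs0.ne'])
  have h1 := @hsl (x₀ - s) (by
    rw [Real.dist_eq, sub_sub_cancel_left, abs_neg, abs_of_pos hs0]; exact hsη)
    (by simp [hs0.ne'])
  have e2 : slope (fun x => P.eval x) x₀ (x₀ + s) = (P.eval (x₀ + s) - P.eval x₀) / s := by
    rw [slope_def_field]; ring_nf
  have e1 : slope (fun x => P.eval x) x₀ (x₀ - s) = (P.eval x₀ - P.eval (x₀ - s)) / s := by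
    rw [slope_def_field, show x₀ - s - x₀ = -s by ring, div_neg, ← neg_div, neg_sub]
  rw [e2] at h2
  rw [e1] at h1
  have hneg : (P.eval (x₀ - s) + Q.eval y₀) * (P.eval (x₀ + s) + Q.eval y₀) < 0 := by
    have h3 : 0 < (P.eval (x₀ + s) - P.eval x₀) * P.derivative.eval x₀ := by
      have := mul_pos h2 hs0
      have e : (P.eval (x₀ + s) - P.eval x₀) / s * P.derivative.eval x₀ * s =
          (P.eval (x₀ + s) - P.eval x₀) * P.derivative.eval x₀ := by
        field_simp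
      rwa [e] at this
    have h4 : 0 < (P.eval x₀ - P.eval (x₀ - s)) * P.derivative.eval x₀ := by
      have := mul_pos h1 hs0
      have e : (P.eval x₀ - P.eval (x₀ - s)) / s * P.derivative.eval x₀ * s =
          (P.eval x₀ - P.eval (x₀ - s)) * P.derivative.eval x₀ := by
        field_simp
      rwa [e] at this
    have h5 := mul_pos h3 h4
    have hq : Q.eval y₀ = - P.eval x₀ := by linarith
    rw [hq]
    by_contra hc
    push Not at hc
    have h6 : ((P.eval (x₀ + s) - P.eval x₀) * P.derivative.eval x₀) *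
        ((P.eval x₀ - P.eval (x₀ - s)) * P.derivative.eval x₀) =
        -((P.eval (x₀ - s) + -P.eval x₀) * (P.eval (x₀ + s) + -P.eval x₀)) *
          (P.derivative.eval x₀ * P.derivative.eval x₀) := by ring
    rw [h6] at h5
    have h7 := mul_nonneg hc hpos.le
    linarith
  have hcont : Continuous fun y : ℝ =>
      (P.eval (x₀ - s) + Q.eval y) * (P.eval (x₀ + s) + Q.eval y) := by fun_prop
  have hev2 := (hcont.tendsto y₀).eventually (eventually_lt_nhds hneg)
  rw [Metric.eventually_nhds_iff] at hev2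
  obtain ⟨ε, hε, hy⟩ := hev2
  refine ⟨min ε r, lt_min hε hr, fun y hyy => ?_⟩
  have hy1 : |y - y₀| < ε := hyy.trans_le (min_le_left _ _)
  have hy2 : |y - y₀| < r := hyy.trans_le (min_le_right _ _)
  have h8 := @hy y (by rw [Real.dist_eq]; exact hy1)
  have h9 : (0 : ℝ) ∈ Set.uIcc (P.eval (x₀ - s) + Q.eval y) (P.eval (x₀ + s) + Q.eval y) := by
    rw [Set.mem_uIcc]
    rcases mul_neg_iff.1 h8 with ⟨ha, hb⟩ | ⟨ha, hb⟩
    · right; exact ⟨hb.le, ha.le⟩
    · left; exact ⟨ha.le, hb.le⟩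
  have hcont2 : ContinuousOn (fun x : ℝ => P.eval x + Q.eval y)
      (Set.uIcc (x₀ - s) (x₀ + s)) := by
    apply Continuous.continuousOn
    fun_prop
  obtain ⟨x, hx, hx0⟩ := intermediate_value_uIcc hcont2 h9
  have hxs : |x - x₀| ≤ s := by
    rw [Set.uIcc_of_le (by linarith), Set.mem_Icc] at hx
    rw [abs_le]
    constructor <;> linarith [hx.1, hx.2]
  refine ⟨x, lt_of_le_of_lt hxs hsδ, ?_⟩
  by_contra hK
  have h10 : (x, y) ∈ Metric.ball (x₀, y₀) r := by
    rw [Metric.mem_ball, Prod.dist_eq, max_lt_iff, Real.dist_eq, Real.dist_eq]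
    exact ⟨lt_of_le_of_lt hxs hsr, hy2⟩
  exact hball h10 ⟨hx0, hK⟩

theorem s_LOC : S_LOC := by
  intro P Q K hK p hp
  obtain ⟨_, _, hZ, hcl⟩ := hK
  refine ⟨fun hP δ hδ => half P Q K hZ hcl p hp hP δ hδ, fun hQ δ hδ => ?_⟩
  have hZ' : Prod.swap ⁻¹' K ⊆ Z Q P := by
    intro q hq
    have h := hZ hq
    show Q.eval q.1 + P.eval q.2 = 0
    rw [add_comm]
    exact h
  have hcl' : IsClosed (Z Q P \ (Prod.swap ⁻¹' K)) := by
    have h1 : Z Q P \ (Prod.swap ⁻¹' K) = Prod.swap ⁻¹' (Z P Q \ K) := by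
      ext q
      constructor
      · rintro ⟨h1, h2⟩
        refine ⟨?_, h2⟩
        show P.eval q.2 + Q.eval q.1 = 0
        rw [add_comm]
        exact h1
      · rintro ⟨h1, h2⟩
        refine ⟨?_, h2⟩
        show Q.eval q.1 + P.eval q.2 = 0
        rw [add_comm]
        exact h1
    rw [h1]
    exact hcl.preimage continuous_swap
  obtain ⟨ε, hε, h⟩ := half Q P (Prod.swap ⁻¹' K) hZ' hcl' p.swap (by simpa using hp) hQ δ hδ
  refine ⟨ε, hε, fun x hx => ?_⟩
  obtain ⟨y, hy, hyK⟩ := h x hx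
  exact ⟨y, hy, hyK⟩

end Pool.Agent.L7h29.OS
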